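import Mathlib
import Pool.Agent.Helper280.QN.Main2

set_option autoImplicit false

namespace Pool.Agent.Results.MP_bb4c62_an.FourProducts

open Pool.Agent.Helper280.QNDefs

universe u v

/-- Surjective maps preserving quasinilpotency of the products `T S`, `S T S`, `T S + S T`,
`T S - S T`, for infinite-dimensional `X`. -/
theorem result {X : Type u} {Y : Type v} [NormedAddCommGroup X] [NormedSpace ℂ X]
    [CompleteSpace X] [NormedAddCommGroup Y] [NormedSpace ℂ Y] [CompleteSpace Y]
    (hX : ¬ FiniteDimensional ℂ X) (φ : (X →L[ℂ] X) → (Y →L[ℂ] Y))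
    (hφ : Function.Surjective φ) :
    (PreservesProduct φ ↔ IsStandard φ) ∧
    (PreservesTripleProduct φ ↔ IsStandard φ) ∧
    (PreservesJordanProduct φ ↔ IsStandard φ) ∧
    (PreservesLieProduct φ ↔ IsStandardWithShift φ) :=
  ⟨Pool.Agent.Helper280.QN.main_a hX φ hφ, Pool.Agent.Helper280.QN.main_b hX φ hφ,
    Pool.Agent.Helper280.QN.main_c hX φ hφ, Pool.Agent.Helper280.QN.main_d hX φ hφ⟩

end Pool.Agent.Results.MP_bb4c62_an.FourProducts
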